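import Mathlib
import Pool.Agent.Helper832.GDStmt
import Pool.Agent.H570Z.L1Defs
import Pool.Agent.H570Z.L1E

set_option autoImplicit false

namespace Pool.Agent.Results.MP_df984a_an.AllInfinite

open MeasureTheory Pool.Agent.Helper832.GS Pool.Agent.H570Z.LG

/-- For every non-compact locally compact group `G` with a left Haar measure `μ`, the
bidimension, the global dimension and the small dimension of `L¹(G)` and the homological
dimension of the augmentation module are all infinite. -/
theorem result (G : Type) [Group G] [TopologicalSpace G] [IsTopologicalGroup G]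
    [LocallyCompactSpace G] [T2Space G] [NoncompactSpace G] [MeasurableSpace G] [BorelSpace G]
    (μ : Measure G) [μ.IsHaarMeasure] [μ.InnerRegularCompactLTTop] :
    db (L1G μ) = ⊤ ∧ dg (L1G μ) = ⊤ ∧ ds (L1G μ) = ⊤ ∧ (augMod μ).dh = ⊤ :=
  ⟨db_top μ, dg_top μ, ds_top μ, dh_aug μ⟩

end Pool.Agent.Results.MP_df984a_an.AllInfinite
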